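import Pool.Agent.W626.FR.Stms
import Pool.Agent.W782.FG.Ind

/-!
# Two-point sums with the square of the inverse of the total conductance
-/

namespace FrogRec.W86DS2

open MeasureTheory ProbabilityTheory Filter FrogGW
open scoped ENNReal NNReal Classical Topology

theorem pt (s : Finset ℕ) (κ : ℕ → ℝ) (h0 : ∀ l, 0 ≤ κ l) (h1 : ∀ l, κ l ≤ 1) :
    ∑ i ∈ s, ∑ j ∈ s.erase i, κ i * κ j * ((1 + ∑ l ∈ (s.erase i).erase j, κ l)⁻¹) ^ 2 ≤ 4 := by
  by_cases hS : ∑ l ∈ s, κ l = 0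
  · have hz : ∀ l ∈ s, κ l = 0 := (Finset.sum_eq_zero_iff_of_nonneg fun l _ => h0 l).mp hS
    rw [Finset.sum_eq_zero]
    · norm_num
    · intro i hi
      rw [Finset.sum_eq_zero]
      intro j _
      rw [hz i hi]; ring
  · have hSpos : 0 < ∑ l ∈ s, κ l := lt_of_le_of_ne (Finset.sum_nonneg fun l _ => h0 l) (Ne.symm hS)
    have hterm : ∀ i ∈ s, ∀ j ∈ s.erase i,
        κ i * κ j * ((1 + ∑ l ∈ (s.erase i).erase j, κ l)⁻¹) ^ 2 ≤
          κ i * κ j * (4 / (∑ l ∈ s, κ l) ^ 2) := by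
      intro i hi j hj
      apply mul_le_mul_of_nonneg_left _ (mul_nonneg (h0 i) (h0 j))
      have e1 := Finset.add_sum_erase s κ hi
      have e2 := Finset.add_sum_erase (s.erase i) κ hj
      have hT : 0 ≤ ∑ l ∈ (s.erase i).erase j, κ l := Finset.sum_nonneg fun l _ => h0 l
      have h3 : ∑ l ∈ s, κ l ≤ 2 * (1 + ∑ l ∈ (s.erase i).erase j, κ l) := by
        have := h1 i
        have := h1 j
        linarith
      have hpos : 0 < 1 + ∑ l ∈ (s.erase i).erase j, κ l := by linarith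
      rw [inv_pow, inv_eq_one_div, div_le_div_iff₀ (by positivity) (by positivity)]
      nlinarith
    calc ∑ i ∈ s, ∑ j ∈ s.erase i, κ i * κ j * ((1 + ∑ l ∈ (s.erase i).erase j, κ l)⁻¹) ^ 2
        ≤ ∑ i ∈ s, ∑ j ∈ s.erase i, κ i * κ j * (4 / (∑ l ∈ s, κ l) ^ 2) :=
          Finset.sum_le_sum fun i hi => Finset.sum_le_sum fun j hj => hterm i hi j hj
      _ ≤ ∑ i ∈ s, ∑ j ∈ s, κ i * κ j * (4 / (∑ l ∈ s, κ l) ^ 2) := by
          refine Finset.sum_le_sum fun i _ => Finset.sum_le_sum_of_subset_of_nonneg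
            (Finset.erase_subset _ _) fun j _ _ => ?_
          have := h0 i
          have := h0 j
          positivity
      _ = 4 := by
          have e : ∑ i ∈ s, ∑ j ∈ s, κ i * κ j * (4 / (∑ l ∈ s, κ l) ^ 2) =
              (∑ i ∈ s, κ i) * (∑ j ∈ s, κ j) * (4 / (∑ l ∈ s, κ l) ^ 2) := by
            rw [Finset.sum_mul_sum, Finset.sum_mul]
            refine Finset.sum_congr rfl fun i _ => ?_
            rw [Finset.sum_mul]
          rw [e]
          field_simp

theorem ds2 : TaskDS2 := by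
  intro X _ m _ κ p _ f h hκ hf hh hκ1
  have key : ∀ k : ℕ, (∫⁻ x, (κ x : ℝ≥0∞) ∂m) ^ 2 * ∫⁻ Y, ∑ i ∈ Finset.range k,
      ∑ j ∈ (Finset.range k).erase i, f (Y i) * h (Y j) *
        ((((1 + ∑ l ∈ Finset.range k, κ (Y l))⁻¹) ^ 2 : ℝ≥0) : ℝ≥0∞)
        ∂(Measure.infinitePi fun _ : ℕ => m) ≤
      4 * (∫⁻ x, f x ∂m) * ∫⁻ x, h x ∂m := by
    intro k
    set W : ℕ → ℕ → (ℕ → X) → ℝ≥0∞ := fun i j Y =>
      ((((1 + ∑ l ∈ ((Finset.range k).erase i).erase j, κ (Y l))⁻¹) ^ 2 : ℝ≥0) : ℝ≥0∞) with hW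
    have hWm : ∀ i j, Measurable (W i j) := by
      intro i j
      rw [hW]
      have : Measurable fun Y : ℕ → X => ∑ l ∈ ((Finset.range k).erase i).erase j, κ (Y l) :=
        Finset.measurable_sum _ fun l _ => hκ.comp (measurable_pi_apply l)
      fun_prop
    have hind : ∀ (a b : X → ℝ≥0∞), Measurable a → Measurable b → ∀ i j : ℕ, i ≠ j →
        ∫⁻ Y, a (Y i) * (b (Y j) * W i j Y) ∂(Measure.infinitePi fun _ : ℕ => m) =
          (∫⁻ x, a x ∂m) * ((∫⁻ x, b x ∂m) *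
            ∫⁻ Y, W i j Y ∂(Measure.infinitePi fun _ : ℕ => m)) := by
      intro a b ha hb i j hij
      have hWi : ∀ Y Y' : ℕ → X, (∀ l, l ≠ i → Y l = Y' l) → W i j Y = W i j Y' := by
        intro Y Y' hY
        simp only [hW]
        rw [Finset.sum_congr rfl fun l hl => by
          rw [hY l (Finset.ne_of_mem_erase (Finset.mem_of_mem_erase hl))]]
      have hWj : ∀ Y Y' : ℕ → X, (∀ l, l ≠ j → Y l = Y' l) → W i j Y = W i j Y' := by
        intro Y Y' hY
        simp only [hW]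
        rw [Finset.sum_congr rfl fun l hl => by
          rw [hY l (Finset.ne_of_mem_erase hl)]]
      rw [Pool.Agent.W782.FG.lintegral_indep' m i a (fun Y => b (Y j) * W i j Y) ha
        ((hb.comp (measurable_pi_apply j)).mul (hWm i j)) (fun Y Y' hY => by
          rw [hY j hij.symm, hWi Y Y' hY])]
      rw [Pool.Agent.W782.FG.lintegral_indep' m j b (W i j) hb (hWm i j) hWj]
    have hle : ∀ (i j : ℕ) (Y : ℕ → X),
        ((((1 + ∑ l ∈ Finset.range k, κ (Y l))⁻¹) ^ 2 : ℝ≥0) : ℝ≥0∞) ≤ W i j Y := by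
      intro i j Y
      simp only [hW]
      norm_cast
      have hsub : ∑ l ∈ ((Finset.range k).erase i).erase j, κ (Y l) ≤
          ∑ l ∈ Finset.range k, κ (Y l) :=
        Finset.sum_le_sum_of_subset ((Finset.erase_subset _ _).trans (Finset.erase_subset _ _))
      gcongr
    have hmp : ∀ i j : ℕ, Measurable fun Y : ℕ → X => f (Y i) * (h (Y j) * W i j Y) := by
      intro i j
      exact (hf.comp (measurable_pi_apply i)).mul ((hh.comp (measurable_pi_apply j)).mul (hWm i j))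
    have hmk : ∀ i j : ℕ, Measurable fun Y : ℕ → X =>
        (κ (Y i) : ℝ≥0∞) * ((κ (Y j) : ℝ≥0∞) * W i j Y) := by
      intro i j
      exact ((hκ.comp (measurable_pi_apply i)).coe_nnreal_ennreal).mul
        (((hκ.comp (measurable_pi_apply j)).coe_nnreal_ennreal).mul (hWm i j))
    have s1 : ∫⁻ Y, ∑ i ∈ Finset.range k,
      ∑ j ∈ (Finset.range k).erase i, f (Y i) * h (Y j) *
        ((((1 + ∑ l ∈ Finset.range k, κ (Y l))⁻¹) ^ 2 : ℝ≥0) : ℝ≥0∞)
        ∂(Measure.infinitePi fun _ : ℕ => m) ≤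
        ∑ i ∈ Finset.range k, ∑ j ∈ (Finset.range k).erase i,
          (∫⁻ x, f x ∂m) * ((∫⁻ x, h x ∂m) *
            ∫⁻ Y, W i j Y ∂(Measure.infinitePi fun _ : ℕ => m)) := by
      calc ∫⁻ Y, ∑ i ∈ Finset.range k,
            ∑ j ∈ (Finset.range k).erase i, f (Y i) * h (Y j) *
              ((((1 + ∑ l ∈ Finset.range k, κ (Y l))⁻¹) ^ 2 : ℝ≥0) : ℝ≥0∞)
              ∂(Measure.infinitePi fun _ : ℕ => m)
          ≤ ∫⁻ Y, ∑ i ∈ Finset.range k,
            ∑ j ∈ (Finset.range k).erase i, f (Y i) * (h (Y j) * W i j Y)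
              ∂(Measure.infinitePi fun _ : ℕ => m) := by
            refine lintegral_mono fun Y => Finset.sum_le_sum fun i _ =>
              Finset.sum_le_sum fun j _ => ?_
            rw [mul_assoc]
            gcongr
            exact hle i j Y
        _ = _ := by
            rw [lintegral_finsetSum _ fun i _ => Finset.measurable_sum _ fun j _ => hmp i j]
            refine Finset.sum_congr rfl fun i _ => ?_
            rw [lintegral_finsetSum _ fun j _ => hmp i j]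
            refine Finset.sum_congr rfl fun j hj => ?_
            exact hind f h hf hh i j (Finset.ne_of_mem_erase hj).symm
    have s2 : ∑ i ∈ Finset.range k, ∑ j ∈ (Finset.range k).erase i,
        (∫⁻ x, (κ x : ℝ≥0∞) ∂m) * ((∫⁻ x, (κ x : ℝ≥0∞) ∂m) *
            ∫⁻ Y, W i j Y ∂(Measure.infinitePi fun _ : ℕ => m)) ≤ 4 := by
      calc ∑ i ∈ Finset.range k, ∑ j ∈ (Finset.range k).erase i,
            (∫⁻ x, (κ x : ℝ≥0∞) ∂m) * ((∫⁻ x, (κ x : ℝ≥0∞) ∂m) *
              ∫⁻ Y, W i j Y ∂(Measure.infinitePi fun _ : ℕ => m))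
          = ∫⁻ Y, ∑ i ∈ Finset.range k, ∑ j ∈ (Finset.range k).erase i,
            (κ (Y i) : ℝ≥0∞) * ((κ (Y j) : ℝ≥0∞) * W i j Y)
              ∂(Measure.infinitePi fun _ : ℕ => m) := by
            rw [lintegral_finsetSum _ fun i _ => Finset.measurable_sum _ fun j _ => hmk i j]
            refine Finset.sum_congr rfl fun i _ => ?_
            rw [lintegral_finsetSum _ fun j _ => hmk i j]
            refine Finset.sum_congr rfl fun j hj => ?_
            exact (hind (fun x => (κ x : ℝ≥0∞)) (fun x => (κ x : ℝ≥0∞)) hκ.coe_nnreal_ennreal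
              hκ.coe_nnreal_ennreal i j (Finset.ne_of_mem_erase hj).symm).symm
        _ ≤ ∫⁻ _ : ℕ → X, 4 ∂(Measure.infinitePi fun _ : ℕ => m) := by
            refine lintegral_mono fun Y => ?_
            have hp := pt (Finset.range k) (fun l => (κ (Y l) : ℝ)) (fun l => (κ (Y l)).coe_nonneg)
              (fun l => by exact_mod_cast hκ1 (Y l))
            have hp' : ∑ i ∈ Finset.range k, ∑ j ∈ (Finset.range k).erase i,
              κ (Y i) * (κ (Y j) * ((1 + ∑ l ∈ ((Finset.range k).erase i).erase j,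
                κ (Y l))⁻¹) ^ 2) ≤ 4 := by
              rw [← NNReal.coe_le_coe]
              push_cast
              simpa only [mul_assoc] using hp
            simp only [hW]
            exact_mod_cast hp'
        _ = 4 := by simp
    calc _ ≤ (∫⁻ x, (κ x : ℝ≥0∞) ∂m) ^ 2 * ∑ i ∈ Finset.range k,
          ∑ j ∈ (Finset.range k).erase i, (∫⁻ x, f x ∂m) * ((∫⁻ x, h x ∂m) *
            ∫⁻ Y, W i j Y ∂(Measure.infinitePi fun _ : ℕ => m)) := by gcongr
      _ = (∫⁻ x, f x ∂m) * (∫⁻ x, h x ∂m) * ∑ i ∈ Finset.range k,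
          ∑ j ∈ (Finset.range k).erase i, (∫⁻ x, (κ x : ℝ≥0∞) ∂m) *
            ((∫⁻ x, (κ x : ℝ≥0∞) ∂m) *
            ∫⁻ Y, W i j Y ∂(Measure.infinitePi fun _ : ℕ => m)) := by
          simp only [Finset.mul_sum]
          refine Finset.sum_congr rfl fun i _ => Finset.sum_congr rfl fun j _ => ?_
          ring
      _ ≤ (∫⁻ x, f x ∂m) * (∫⁻ x, h x ∂m) * 4 := by gcongr
      _ = 4 * (∫⁻ x, f x ∂m) * ∫⁻ x, h x ∂m := by ring
  rw [← lintegral_const_mul _ (measurable_of_countable _)]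
  calc _ ≤ ∫⁻ _ : ℕ, 4 * (∫⁻ x, f x ∂m) * ∫⁻ x, h x ∂m ∂p := lintegral_mono fun k => key k
    _ = _ := by simp

end FrogRec.W86DS2
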