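import Pool.Agent.W626.FR.Stms
import Pool.Agent.W591.FG.W
import Pool.Agent.W591.FG.Wpos
import Pool.Agent.W591.FG.Key
import Pool.Agent.W782.FG.GF
import Pool.Agent.W782.FG.Split
import Pool.Agent.W852.FG.Final

/-!
# Facts on supercritical trees
-/

namespace FrogRec.W86Env

open MeasureTheory ProbabilityTheory Filter FrogGW
open scoped ENNReal NNReal Classical Topology

theorem env : TaskKap → TaskMeasZ → TaskEnv := by
  intro hKap _ p _ hp
  have hTr : TaskTree := Pool.Agent.W782.FG.tree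
  have hW : TaskW := FrogGW.W591.taskW
  have hWpos : TaskWpos := FrogGW.W591.taskWpos hTr
  have hGF : TaskGF := Pool.Agent.W782.FG.gf
  have hZero : TaskZero := FrogGW.W591.taskZero hTr hW
  have hE : TaskExt := FrogGW.W591.taskExt hTr hW hWpos hGF hZero
  obtain ⟨γ, hg0, hg1, hγ⟩ := FrogGW.exists_gamma hp
  set ρ := (1 - γ) / (1 + γ) with hρ
  have hρ0 : 0 < ρ := div_pos (by linarith) (by linarith)
  have hρ1 : ρ < 1 := by rw [hρ, div_lt_one (by linarith)]; linarith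
  obtain ⟨-, hwm, -, hw01, hrec, -⟩ := hW ρ hρ0 hρ1
  have hpos := hWpos p ρ hρ0 hρ1 hγ
  obtain ⟨hz1, hzf⟩ := hZero p ρ hρ0 hρ1 hpos
  have hlow : ∀ n Z, γ * ww ρ Z ≤ (kap n Z : ℝ) := hKap.2.2.2.2 γ hg0 hg1
  refine ⟨⟨GW p {Z | ww ρ Z = 0}, hz1, fun n => measure_mono fun Z hZ => ?_,
    (hGF p hp _ hz1 hzf).1⟩, ?_, ?_, ?_⟩
  · have h1 : kap n Z = 0 := hZ
    have h2 := hlow n Z
    rw [h1] at h2
    have h3 := (hw01 Z).1
    have h4 : ww ρ Z ≤ 0 := by
      by_contra hcon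
      push Not at hcon
      have := mul_pos hg0 hcon
      simp at h2
      linarith
    exact le_antisymm h4 h3
  · have hfin : ∫⁻ Z, ENNReal.ofReal (ww ρ Z) ∂(GW p) ≤ 1 := by
      calc ∫⁻ Z, ENNReal.ofReal (ww ρ Z) ∂(GW p) ≤ ∫⁻ _, 1 ∂(GW p) :=
            lintegral_mono fun Z => by
              rw [← ENNReal.ofReal_one]
              exact ENNReal.ofReal_le_ofReal (hw01 Z).2
        _ = 1 := by simp
    have hne : ENNReal.ofReal γ * ∫⁻ Z, ENNReal.ofReal (ww ρ Z) ∂(GW p) ≠ ∞ :=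
      ENNReal.mul_ne_top ENNReal.ofReal_ne_top (ne_top_of_le_ne_top ENNReal.one_ne_top hfin)
    refine ⟨(ENNReal.ofReal γ * ∫⁻ Z, ENNReal.ofReal (ww ρ Z) ∂(GW p)).toNNReal, ?_, fun n => ?_⟩
    · apply ENNReal.toNNReal_pos _ hne
      exact mul_ne_zero (by simpa using hg0) hpos.ne'
    · rw [ENNReal.coe_toNNReal hne, ← lintegral_const_mul _ hwm.ennreal_ofReal]
      refine lintegral_mono fun Z => ?_
      rw [← ENNReal.ofReal_mul hg0.le]
      calc ENNReal.ofReal (γ * ww ρ Z) ≤ ENNReal.ofReal (kap n Z : ℝ) :=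
            ENNReal.ofReal_le_ofReal (hlow n Z)
        _ = (kap n Z : ℝ≥0∞) := by simp
  · obtain ⟨k, hk⟩ : ∃ k : ℕ, GW p {Z | 1 / ((k : ℝ) + 1) ≤ ww ρ Z} ≠ 0 := by
      by_contra hcon
      push Not at hcon
      have h1 : GW p (⋃ k : ℕ, {Z | 1 / ((k : ℝ) + 1) ≤ ww ρ Z}) = 0 := measure_iUnion_null hcon
      have h2 : ∀ᵐ Z ∂(GW p), ENNReal.ofReal (ww ρ Z) = 0 := by
        have h3 : ∀ᵐ Z ∂(GW p), Z ∉ ⋃ k : ℕ, {Z | 1 / ((k : ℝ) + 1) ≤ ww ρ Z} := by
          exact measure_eq_zero_iff_ae_notMem.1 h1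
        filter_upwards [h3] with Z hZ
        rw [ENNReal.ofReal_eq_zero]
        by_contra hc
        push Not at hc
        obtain ⟨k, hk⟩ := exists_nat_one_div_lt hc
        exact hZ (Set.mem_iUnion.2 ⟨k, hk.le⟩)
      rw [lintegral_congr_ae h2] at hpos
      simp at hpos
    have hk0 : (0 : ℝ) < 1 / ((k : ℝ) + 1) := by positivity
    have hk1 : 1 / ((k : ℝ) + 1) ≤ 1 := by
      rw [div_le_one (by positivity)]
      have : (0 : ℝ) ≤ k := Nat.cast_nonneg k
      linarith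
    refine ⟨γ * (1 / ((k : ℝ) + 1)), by positivity, ?_,
      (GW p {Z | 1 / ((k : ℝ) + 1) ≤ ww ρ Z}).toNNReal, ?_, ?_, fun n => ?_⟩
    · nlinarith
    · exact ENNReal.toNNReal_pos hk (measure_ne_top _ _)
    · have h1 : GW p {Z | 1 / ((k : ℝ) + 1) ≤ ww ρ Z} ≤ 1 := prob_le_one
      have := ENNReal.toNNReal_mono ENNReal.one_ne_top h1
      simpa using this
    · rw [ENNReal.coe_toNNReal (measure_ne_top _ _)]
      refine measure_mono fun Z hZ => ?_
      have h1 : 1 / ((k : ℝ) + 1) ≤ ww ρ Z := hZ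
      show γ * (1 / ((k : ℝ) + 1)) ≤ (kap n Z : ℝ)
      exact (mul_le_mul_of_nonneg_left h1 hg0.le).trans (hlow n Z)
  · filter_upwards [(hE p ρ hρ0 hρ1 hγ).2] with Z hZ hS
    have h0 := hZ hS
    obtain ⟨i, hi, hi'⟩ : ∃ i < Z [], 0 < ww ρ (sh i Z) := by
      by_contra hcon
      push Not at hcon
      have h1 : ∏ i ∈ Finset.range (Z []), (1 - ww ρ (sh i Z)) = 1 := by
        refine Finset.prod_eq_one fun i hi => ?_
        have := le_antisymm (hcon i (Finset.mem_range.1 hi)) (hw01 (sh i Z)).1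
        rw [this]; simp
      rw [hrec Z, h1] at h0
      simp at h0
    have hnn : 0 < γ * ww ρ (sh i Z) := mul_pos hg0 hi'
    refine ⟨(γ * ww ρ (sh i Z)).toNNReal, Real.toNNReal_pos.2 hnn, fun n => ?_⟩
    have h2 : kap n (sh i Z) ≤ KK n Z := by
      unfold KK
      exact Finset.single_le_sum (f := fun i => kap n (sh i Z)) (fun _ _ => zero_le)
        (Finset.mem_range.2 hi)
    refine le_trans ?_ h2
    exact Real.toNNReal_le_iff_le_coe.2 (hlow n (sh i Z))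

end FrogRec.W86Env
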