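import Pool.Agent.W626.FR.Stms

/-!
# Opened vertices are active
-/

namespace FrogRec.W86Geo

open MeasureTheory ProbabilityTheory Filter FrogGW
open scoped ENNReal NNReal Classical Topology

theorem step_cases (Z : Env) (p : List ℕ) (x : ℝ) :
    (∃ a, step Z p x = a :: p) ∨ (∃ i, p = i :: step Z p x) := by
  cases p with
  | nil => exact Or.inl ⟨_, rfl⟩
  | cons i v =>
    simp only [step]
    split_ifs with h
    · exact Or.inl ⟨_, rfl⟩
    · exact Or.inr ⟨i, rfl⟩

theorem pass (Z : Env) (x : List ℕ) (u : ℕ → ℝ) (w : List ℕ) (k0 : ℕ)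
    (h0 : walk Z x u k0 <:+ w) : ∀ d, w <:+ walk Z x u (k0 + d) →
    ∃ k', walk Z x u k' = w := by
  intro d
  induction d with
  | zero =>
    intro h
    exact ⟨k0, List.IsSuffix.eq_of_length h0 (le_antisymm h0.length_le h.length_le)⟩
  | succ d ih =>
    intro h
    by_cases hw : w = walk Z x u (k0 + (d + 1))
    · exact ⟨_, hw.symm⟩
    · have e : walk Z x u (k0 + (d + 1)) = step Z (walk Z x u (k0 + d)) (u (k0 + d)) := rfl
      rcases step_cases Z (walk Z x u (k0 + d)) (u (k0 + d)) with ⟨a, ha⟩ | ⟨i, hi⟩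
      · rw [e, ha] at h hw
        rcases List.suffix_cons_iff.mp h with h | h
        · exact absurd h hw
        · exact ih h
      · apply ih
        rw [hi]
        rw [e] at h
        exact List.suffix_cons_iff.mpr (Or.inr h)

theorem app_suffix {s t : List ℕ} (J : ℕ) (h : s <:+ t) : s ++ [J] <:+ t ++ [J] := by
  obtain ⟨r, rfl⟩ := h
  exact ⟨r, by simp⟩

theorem geo : TaskGeo := by
  intro Z n ω J z' hCE y hy
  induction hy with
  | @start z y hz hyz hlen =>
    obtain ⟨k, hk, -, -, -, -⟩ := hCE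
    have hz' : z = z' := hz
    subst hz'
    obtain ⟨k', hk'⟩ := pass Z [] ((ω []).2 0) (y ++ [J]) 0 (List.nil_suffix) k (by
      rw [Nat.zero_add, hk]; exact app_suffix J hyz)
    exact Active.wake 0 k' Active.root (by simp [cnt]) hk'
  | @step x t z y hx hη hty hyz hlen ih =>
    unfold etaJ at hη
    rw [decide_eq_true_iff] at hη
    obtain ⟨l, hl, -, -, k, hk, -, -, ⟨k0, hk0, hk0'⟩, -⟩ := hη
    obtain ⟨d, rfl⟩ := Nat.exists_eq_add_of_le hk0
    obtain ⟨k', hk'⟩ := pass Z (x ++ [J]) ((ω (x ++ [J])).2 l) (y ++ [J]) k0 (by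
      rw [hk0']; exact app_suffix J hty) d (by rw [hk]; exact app_suffix J hyz)
    refine Active.wake l k' ih ?_ hk'
    cases x with
    | nil => exact hl
    | cons a b => exact hl

end FrogRec.W86Geo
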